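import Mathlib

/-!
The number of the integral zeros of a form in a shell for the height of the tangent hyperplane: definitions.
-/

namespace Pool.Agent.Lib.MP_17a322_nt.GE

open MvPolynomial

/-- The number of the zeros in a shell: for every `C` there are a proper closed subset `G = 0` of `H = 0` and a number
`A` such that for every `B ≥ 1` at most `A B ^ b` primitive integral zeros `p` of `H` with `|p| ≤ B` outside this
subset satisfy `C⁻¹ |p| ^ a gcd(∇H(p)) ≤ |∇H(p)| ≤ C |p| ^ a gcd(∇H(p))`. -/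
def GradShell {n : ℕ} (a b : ℝ) (H : MvPolynomial (Fin (n + 1)) ℤ) : Prop :=
  ∀ C : ℝ, ∃ (G : MvPolynomial (Fin (n + 1)) ℤ) (A : ℝ), (∃ e', G.IsHomogeneous e') ∧
    ¬ map (Int.castRingHom ℚ) H ∣ map (Int.castRingHom ℚ) G ∧
    ∀ B : ℝ, 1 ≤ B →
      (({p : Fin (n + 1) → ℤ | Finset.univ.gcd p = 1 ∧ eval p H = 0 ∧ eval p G ≠ 0 ∧ ‖p‖ ≤ B ∧
        ‖p‖ ^ a * ((Finset.univ.gcd fun j => eval p (pderiv j H) : ℤ) : ℝ) ≤
          C * ‖fun j => eval p (pderiv j H)‖ ∧
        ‖fun j => eval p (pderiv j H)‖ ≤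
          C * ‖p‖ ^ a * ((Finset.univ.gcd fun j => eval p (pderiv j H) : ℤ) : ℝ)}.ncard : ℕ) : ℝ) ≤ A * B ^ b

/-- A gain over the trivial bound for the number of the zeros in a shell: for every `δ > 0` there are `n` and
`m ≤ n`, `m` arbitrarily large, such that for every `e` and every form `H` of degree `e` in `n + 1` variables with
integer coefficients which is irreducible over `ℚ` the bound holds for the shell with the exponent `m + δ e` and with
the exponent `n - m + δ e` of `B`. -/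
def ShellGain : Prop :=
  ∀ δ : ℝ, 0 < δ → ∀ m₀ : ℝ, ∃ (n : ℕ) (m : ℝ), m₀ ≤ m ∧ m ≤ n ∧ ∀ (e : ℕ) (H : MvPolynomial (Fin (n + 1)) ℤ),
    H.IsHomogeneous e → Irreducible (map (Int.castRingHom ℚ) H) → GradShell (m + δ * e) (n - m + δ * e) H

end Pool.Agent.Lib.MP_17a322_nt.GE
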