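import Pool.Agent.Lib.MP_17a322_nt.SH.Step
import Pool.Agent.Lib.MP_17a322_nt.GS.Rat
import Pool.Agent.Lib.MP_17a322_nt.GS.Zero

/-!
The number of the integral zeros of forms in the shells for the height of the tangent hyperplane and Vojta's
conjecture for `D = 0` and rational varieties.
-/

universe v

namespace Pool.Agent.Lib.MP_17a322_nt.GE

open MvPolynomial

open Pool.Agent.Lib.MP_17a322_nt.GR
open Pool.Agent.Lib.MP_17a322_nt.RAT (VojtaGaussRat)

/-- The inequality for the gradients implies that there are only finitely many zeros in the shells for a larger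
exponent. -/
theorem shell_of_gradE {n e : ℕ} {a a' b : ℝ} {H : MvPolynomial (Fin (n + 1)) ℤ} (hH : H.IsHomogeneous e)
    (hirr : Irreducible (map (Int.castRingHom ℚ) H)) (haa : a < a') (hb : 0 ≤ b) (h : GradE a H) :
    GradShell a' b H := by
  intro C
  obtain ⟨G, C₁, ⟨e', hG⟩, hHG, hC⟩ := h
  obtain ⟨j, hj⟩ := exists_pderiv (hH.map (Int.castRingHom ℚ)) hirr
  rw [pderiv_map] at hj
  obtain ⟨D, hD⟩ : ∃ D : ℝ, D = (C * C₁) ^ (1 / (a' - a)) := ⟨_, rfl⟩
  obtain ⟨M, hM⟩ : ∃ M : ℕ, M = {p : Fin (n + 1) → ℤ | ‖p‖ ≤ D}.ncard := ⟨_, rfl⟩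
  refine ⟨G * pderiv j H, M, ⟨e' + (e - 1), hG.mul hH.pderiv⟩, ?_, fun B hB => ?_⟩
  · rw [map_mul]
    intro h1
    rcases (UniqueFactorizationMonoid.irreducible_iff_prime.1 hirr).dvd_or_dvd h1 with h1 | h1
    · exact hHG h1
    · exact hj h1
  have hB1 : 1 ≤ B ^ b := Real.one_le_rpow hB hb
  refine le_trans (Nat.cast_le.2 ?_) (le_mul_of_one_le_right (Nat.cast_nonneg M) hB1)
  rw [hM]
  refine Set.ncard_le_ncard ?_ (Sp_ball D)
  rintro p ⟨hp1, hp2, hp3, -, hp5, -⟩
  rw [map_mul] at hp3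
  have h1 := hC p hp1 hp2 (left_ne_zero_of_mul hp3)
  obtain ⟨g, hg⟩ : ∃ g : Fin (n + 1) → ℤ, g = fun j => eval p (pderiv j H) := ⟨_, rfl⟩
  have hg0 : g ≠ 0 := by
    intro h0
    apply right_ne_zero_of_mul hp3
    have h2 := congrFun h0 j
    rwa [hg] at h2
  rw [← hg] at h1 hp5
  have hgcd1 : 0 < Finset.univ.gcd g := by
    refine lt_of_le_of_ne (Sp_gcd0 g) fun h1 => hg0 ?_
    funext j
    exact Finset.gcd_eq_zero_iff.1 h1.symm j (Finset.mem_univ j)
  have hgR : (0 : ℝ) < ((Finset.univ.gcd g : ℤ) : ℝ) := by exact_mod_cast hgcd1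
  have hgn : 0 < ‖g‖ := norm_pos_iff.2 hg0
  have hp := Sp_one hp1
  have hp0 : 0 < ‖p‖ := by linarith
  have hpa : 0 < ‖p‖ ^ a := Real.rpow_pos_of_pos hp0 _
  have hpa' : 0 < ‖p‖ ^ a' := Real.rpow_pos_of_pos hp0 _
  have hC0 : 0 < C := by
    by_contra hcon
    push Not at hcon
    have h2 : 0 < ‖p‖ ^ a' * ((Finset.univ.gcd g : ℤ) : ℝ) := mul_pos hpa' hgR
    nlinarith
  have h2 : ‖p‖ ^ a' * ((Finset.univ.gcd g : ℤ) : ℝ) ≤
      C * (C₁ * ‖p‖ ^ a * ((Finset.univ.gcd g : ℤ) : ℝ)) := hp5.trans (mul_le_mul_of_nonneg_left h1 hC0.le)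
  have h3 : ‖p‖ ^ a' ≤ C * C₁ * ‖p‖ ^ a := by
    refine le_of_mul_le_mul_right ?_ hgR
    calc _ ≤ _ := h2
      _ = _ := by ring
  have h4 : ‖p‖ ^ (a' - a) ≤ C * C₁ := by
    rw [Real.rpow_sub hp0, div_le_iff₀ hpa]
    exact h3
  have h5 : 0 < a' - a := by linarith
  change ‖p‖ ≤ D
  rw [hD]
  calc ‖p‖ = (‖p‖ ^ (a' - a)) ^ (1 / (a' - a)) := by
        rw [← Real.rpow_mul hp0.le, mul_one_div_cancel h5.ne', Real.rpow_one]
    _ ≤ _ := Real.rpow_le_rpow (by positivity) h4 (by positivity)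

/-- **Counting in the shells.** For every `c > 0` and every `b ≥ 0`: the bound `A B ^ b` for the number of the primitive
integral zeros `p`, `|p| ≤ B`, with `|∇H(p)|` of the size of `|p| ^ (n + c) gcd(∇H(p))`, off a proper closed subset, for
all `n` and all irreducible forms `H` in `n + 1` variables, is equivalent to Vojta's conjecture for `D = 0` and
rational varieties over any number field. -/
theorem shell_iff_rat (L : Type v) [Field L] [NumberField L] {c b : ℝ} (hc : 0 < c) (hb : 0 ≤ b) :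
    (∀ (n e : ℕ) (H : MvPolynomial (Fin (n + 1)) ℤ), H.IsHomogeneous e →
      Irreducible (map (Int.castRingHom ℚ) H) → GradShell (n + c) b H) ↔ VojtaGaussRat L := by
  constructor
  · intro h
    obtain ⟨r, hr⟩ := exists_nat_ge b
    have hr0 : (0 : ℝ) ≤ r := Nat.cast_nonneg r
    refine (const_iff_rat L (c := r + 1 + c) (by positivity)).1 fun n e H hH hirr => ?_
    have hn0 : (0 : ℝ) ≤ n := Nat.cast_nonneg n
    have h1 : GradE (((n + r + 1 : ℕ) : ℝ) + c) H :=
      gradE_of_shell_deg (N := n) (r := r) (b := b) (by positivity) (by linarith)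
        (fun H' h1 h2 => h (n + r + 1) e H' h1 h2) H hH hirr
    refine gradX_of_gradE (le_of_eq ?_) h1
    push_cast
    ring
  · intro h n e H hH hirr
    refine shell_of_gradE hH hirr (a := n + c / 2) (by linarith) hb ?_
    exact (grad_iff_rat L).2 h n e H (c / 2) hH hirr (by positivity)

/-- An unbounded gain implies the inequality for the gradients. -/
theorem gradInt_of_shellGain (h : ShellGain) : GradInt := by
  refine gradInt_of_gainE fun δ hδ m₀ => ?_
  obtain ⟨n, m, hm, hmn, hE⟩ := h δ hδ (max m₀ 1)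
  have hm1 : 1 ≤ m := (le_max_right _ _).trans hm
  refine ⟨n, m, (le_max_left _ _).trans hm, hmn, fun N r e hr1 hNr hr H hH hirr => ?_⟩
  obtain ⟨r, rfl⟩ : ∃ r', r = r' + 1 := ⟨r - 1, by omega⟩
  subst hNr
  have h1 : 0 ≤ δ * e := mul_nonneg hδ.le (Nat.cast_nonneg e)
  refine gradE_of_shell_deg (N := N) (r := r) (b := ((N + (r + 1) : ℕ) : ℝ) - m + δ * e) (by linarith) ?_
    (hE e) H hH hirr
  push_cast at hr ⊢
  exact hr

/-- The inequality for the gradients implies the largest possible gain. -/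
theorem shellGain_of_gradInt (h : GradInt) : ShellGain := by
  intro δ hδ m₀
  obtain ⟨n₀, hn₀⟩ := exists_nat_ge m₀
  refine ⟨n₀, n₀, hn₀, le_rfl, fun e H hH hirr => ?_⟩
  have he : 1 ≤ e := by
    rcases Nat.eq_zero_or_pos e with h0 | h0
    · exfalso
      subst h0
      refine hirr.not_isUnit ?_
      have h1 : (map (Int.castRingHom ℚ) H).totalDegree = 0 :=
        Nat.le_zero.1 (hH.map (Int.castRingHom ℚ)).totalDegree_le
      rw [totalDegree_eq_zero_iff_eq_C] at h1
      rw [h1]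
      refine (isUnit_iff_ne_zero.2 fun h2 => hirr.ne_zero ?_).map C
      rw [h1, h2, C_0]
    · exact h0
  have heR : (1 : ℝ) ≤ e := by exact_mod_cast he
  have h1 : 0 < δ * e := mul_pos hδ (by linarith)
  refine shell_of_gradE hH hirr (a := n₀ + δ * e / 2) (by linarith) (by linarith) ?_
  exact h n₀ e H (δ * e / 2) hH hirr (by linarith)

/-- An unbounded gain over the trivial bound is equivalent to the inequality with the exponent `n + ε`. -/
theorem shellGain_iff : ShellGain ↔ GradInt :=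
  ⟨gradInt_of_shellGain, shellGain_of_gradInt⟩

/-- The trivial bound. -/
theorem shell_trivial {n : ℕ} (a : ℝ) {H : MvPolynomial (Fin (n + 1)) ℤ}
    (hirr : Irreducible (map (Int.castRingHom ℚ) H)) : GradShell a n H := by
  intro C
  have hH0 : H ≠ 0 := by
    rintro rfl
    rw [map_zero] at hirr
    exact hirr.ne_zero rfl
  refine ⟨1, H.totalDegree * 3 ^ n, ⟨0, isHomogeneous_one _ _⟩, fun h => ?_, fun B hB => ?_⟩
  · rw [map_one] at h
    exact hirr.not_isUnit (isUnit_of_dvd_one h)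
  · exact zeros_le' hH0 hB le_rfl fun p hp => ⟨hp.2.1, hp.2.2.2.1⟩

end Pool.Agent.Lib.MP_17a322_nt.GE
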