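import Pool.Agent.Lib.MP_17a322_nt.SH.Defs
import Pool.Agent.Lib.MP_17a322_nt.GS.Step
import Pool.Agent.Lib.MP_17a322_nt.GE.Defs

/-!
The bound for the number of the zeros in a shell, for the forms in more variables, implies the inequality for the
gradients at all points, for the forms in fewer variables.
-/

namespace Pool.Agent.Lib.MP_17a322_nt.GE

open MvPolynomial

/-- The points of the shell with the parameter `B`. -/
private def Sh {n : ℕ} (a : ℝ) (H G : MvPolynomial (Fin (n + 1)) ℤ) (B : ℕ) : Set (Fin (n + 1) → ℤ) :=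
  {p | Finset.univ.gcd p = 1 ∧ eval p H = 0 ∧ eval p G ≠ 0 ∧ ‖p‖ ≤ B ∧
    (B : ℝ) ^ a * ((Finset.univ.gcd fun j => eval p (pderiv j H) : ℤ) : ℝ) ≤ ‖fun j => eval p (pderiv j H)‖ ∧
    ‖fun j => eval p (pderiv j H)‖ ≤ (2 * B : ℝ) ^ a * ((Finset.univ.gcd fun j => eval p (pderiv j H) : ℤ) : ℝ)}

private def GradSh {n : ℕ} (a b : ℝ) (H : MvPolynomial (Fin (n + 1)) ℤ) : Prop :=
  ∃ (G : MvPolynomial (Fin (n + 1)) ℤ) (C : ℝ), (∃ e', G.IsHomogeneous e') ∧
    ¬ map (Int.castRingHom ℚ) H ∣ map (Int.castRingHom ℚ) G ∧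
    ∀ B : ℕ, 1 ≤ B → (((Sh a H G B).ncard : ℕ) : ℝ) ≤ C * (B : ℝ) ^ b

private theorem Sh_finite {n : ℕ} (a : ℝ) (H G : MvPolynomial (Fin (n + 1)) ℤ) (B : ℕ) : (Sh a H G B).Finite :=
  (Sp_ball (B : ℝ)).subset fun _ hp => hp.2.2.2.1

/-- The values of a polynomial in one more variable at the integers in a finite set. -/
private theorem Sh_count {m : ℕ} (G : MvPolynomial (Fin (m + 1)) ℤ) (p : Fin m → ℤ) (k : ℕ) (I : Finset ℤ)
    (hk : eval p ((finSuccEquiv ℤ m G).coeff k) ≠ 0) :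
    I.card ≤ (I.filter fun t => eval (Fin.cons t p : Fin (m + 1) → ℤ) G ≠ 0).card +
      (finSuccEquiv ℤ m G).natDegree := by
  obtain ⟨Q, hQ⟩ : ∃ Q, Q = Polynomial.map (eval p) (finSuccEquiv ℤ m G) := ⟨_, rfl⟩
  have hev : ∀ t : ℤ, eval (Fin.cons t p : Fin (m + 1) → ℤ) G = Q.eval t := fun t => by
    rw [hQ]
    exact eval_eq_eval_mv_eval' p t G
  have hQ0 : Q ≠ 0 := by
    intro h0
    apply hk
    have h1 : Q.coeff k = 0 := by rw [h0, Polynomial.coeff_zero]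
    rwa [hQ, Polynomial.coeff_map] at h1
  have h1 : (I.filter fun t => ¬ eval (Fin.cons t p : Fin (m + 1) → ℤ) G ≠ 0).card ≤
      (finSuccEquiv ℤ m G).natDegree := by
    refine le_trans (Finset.card_le_card (t := Q.roots.toFinset) ?_) ?_
    · intro t ht
      rw [Finset.mem_filter, not_not, hev] at ht
      rw [Multiset.mem_toFinset, Polynomial.mem_roots hQ0]
      exact ht.2
    · refine (Multiset.toFinset_card_le _).trans ((Polynomial.card_roots' Q).trans ?_)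
      rw [hQ]
      exact Polynomial.natDegree_map_le
  have h2 := Finset.card_filter_add_card_filter_not (s := I)
    (fun t => eval (Fin.cons t p : Fin (m + 1) → ℤ) G ≠ 0)
  omega

/-- The gradient of the form in one more variable. -/
private theorem Sh_grad {n : ℕ} (H : MvPolynomial (Fin (n + 1)) ℤ) (p : Fin (n + 1) → ℤ) (t : ℤ) :
    ‖fun j => eval (Fin.cons t p : Fin (n + 1 + 1) → ℤ) (pderiv j (rename Fin.succ H))‖ =
      ‖fun j => eval p (pderiv j H)‖ ∧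
    (Finset.univ.gcd fun j => eval (Fin.cons t p : Fin (n + 1 + 1) → ℤ) (pderiv j (rename Fin.succ H))) =
      Finset.univ.gcd fun j => eval p (pderiv j H) := by
  obtain ⟨q, hq⟩ : ∃ q : Fin (n + 1 + 1) → ℤ, q = Fin.cons t p := ⟨_, rfl⟩
  have hqs : ∀ i, q (Fin.succ i) = p i := fun i => by rw [hq, Fin.cons_succ]
  have hqe : ∀ f : MvPolynomial (Fin (n + 1)) ℤ, eval q (rename Fin.succ f) = eval p f := by
    intro f
    rw [eval_rename]
    congr 2
    funext i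
    exact hqs i
  have hgs : ∀ i, eval q (pderiv (Fin.succ i) (rename Fin.succ H)) = eval p (pderiv i H) := by
    intro i
    rw [pderiv_rename (Fin.succ_injective _), hqe]
  have hg0 : eval q (pderiv 0 (rename Fin.succ H)) = 0 := by
    have h1 : pderiv (0 : Fin (n + 1 + 1)) (rename Fin.succ H) = 0 := by
      refine pderiv_eq_zero_of_notMem_vars fun h => ?_
      have h2 := vars_rename Fin.succ H h
      obtain ⟨i, -, hi⟩ := Finset.mem_image.1 h2
      exact Fin.succ_ne_zero i hi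
    rw [h1, map_zero]
  rw [← hq]
  constructor
  · refine le_antisymm ?_ ?_
    · rw [pi_norm_le_iff_of_nonneg (norm_nonneg _)]
      intro i
      refine Fin.cases ?_ (fun i => ?_) i
      · rw [hg0, norm_zero]
        exact norm_nonneg _
      · rw [hgs]
        exact norm_le_pi_norm (fun j => eval p (pderiv j H)) i
    · rw [pi_norm_le_iff_of_nonneg (norm_nonneg _)]
      intro i
      rw [← hgs]
      exact norm_le_pi_norm (fun j => eval q (pderiv j (rename Fin.succ H))) (Fin.succ i)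
  · refine Int.eq_of_associated_of_nonneg (associated_of_dvd_dvd ?_ ?_) (Sp_gcd0 _) (Sp_gcd0 _)
    · refine Finset.dvd_gcd fun i _ => ?_
      rw [← hgs]
      exact Finset.gcd_dvd (Finset.mem_univ _)
    · refine Finset.dvd_gcd fun i _ => ?_
      refine Fin.cases ?_ (fun i => ?_) i
      · rw [hg0]
        exact dvd_zero _
      · rw [hgs]
        exact Finset.gcd_dvd (Finset.mem_univ _)

/-- Powers of the small numbers. -/
private theorem Sh_pow (D : ℕ) (b : ℝ) : ∃ μ : ℝ, 0 < μ ∧ ∀ B : ℕ, 1 ≤ B → B ≤ D → μ ≤ (B : ℝ) ^ b := by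
  rcases Nat.eq_zero_or_pos D with h0 | h0
  · exact ⟨1, one_pos, fun B hB hBD => by omega⟩
  · have hD : (1 : ℝ) ≤ D := by exact_mod_cast h0
    refine ⟨(D : ℝ) ^ (-|b|), Real.rpow_pos_of_pos (by linarith) _, fun B hB hBD => ?_⟩
    have hB1 : (1 : ℝ) ≤ B := by exact_mod_cast hB
    have hBD1 : (B : ℝ) ≤ D := by exact_mod_cast hBD
    calc (D : ℝ) ^ (-|b|) ≤ (B : ℝ) ^ (-|b|) :=
          Real.rpow_le_rpow_of_nonpos (by linarith) hBD1 (neg_nonpos.2 (abs_nonneg b))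
      _ ≤ (B : ℝ) ^ b := Real.rpow_le_rpow_of_exponent_le hB1 (neg_abs_le b)

/-- One variable less: the counting. `I B` is the set of the values of the additional variable. -/
private theorem Sh_main {n : ℕ} {b : ℝ} (H : MvPolynomial (Fin (n + 1)) ℤ)
    (hirr : Irreducible (map (Int.castRingHom ℚ) H)) {G' : MvPolynomial (Fin (n + 1 + 1)) ℤ} {e' : ℕ}
    (hG' : G'.IsHomogeneous e')
    (hG : ¬ map (Int.castRingHom ℚ) (rename Fin.succ H) ∣ map (Int.castRingHom ℚ) G') {a C₀ : ℝ}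
    (I : ℕ → Finset ℤ) (hI : ∀ B, B ≤ 2 * (I B).card) (Z : ℕ → Set (Fin (n + 1 + 1) → ℤ))
    (hZfin : ∀ B, (Z B).Finite) (hZ : ∀ B, 1 ≤ B → (((Z B).ncard : ℕ) : ℝ) ≤ C₀ * (B : ℝ) ^ b)
    (hmem : ∀ (B : ℕ) (p : Fin (n + 1) → ℤ) (t : ℤ), 1 ≤ B → Finset.univ.gcd p = 1 → eval p H = 0 → ‖p‖ ≤ B →
      (B : ℝ) ^ a * ((Finset.univ.gcd fun j => eval p (pderiv j H) : ℤ) : ℝ) ≤ ‖fun j => eval p (pderiv j H)‖ →
      ‖fun j => eval p (pderiv j H)‖ ≤ (2 * B : ℝ) ^ a * ((Finset.univ.gcd fun j => eval p (pderiv j H) : ℤ) : ℝ) →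
      t ∈ I B → eval (Fin.cons t p : Fin (n + 1 + 1) → ℤ) G' ≠ 0 → (Fin.cons t p : Fin (n + 1 + 1) → ℤ) ∈ Z B) :
    GradSh a (b - 1) H := by
  obtain ⟨h, hh⟩ : ∃ h, h = map (Int.castRingHom ℚ) H := ⟨_, rfl⟩
  rw [← hh] at hirr
  have hmap : map (Int.castRingHom ℚ) (rename Fin.succ H) = rename Fin.succ h := by rw [hh, map_rename]
  rw [hmap] at hG
  obtain ⟨P, hP⟩ : ∃ P, P = finSuccEquiv ℤ (n + 1) G' := ⟨_, rfl⟩
  have hcoeff : ∀ k, (finSuccEquiv ℚ (n + 1) (map (Int.castRingHom ℚ) G')).coeff k =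
      map (Int.castRingHom ℚ) (P.coeff k) := by
    intro k
    ext d
    rw [finSuccEquiv_coeff_coeff, coeff_map, coeff_map, hP, finSuccEquiv_coeff_coeff]
  obtain ⟨k, hk⟩ : ∃ k, ¬ h ∣ map (Int.castRingHom ℚ) (P.coeff k) := by
    by_contra! hc
    apply hG
    have h1 := (Polynomial.C_dvd_iff_dvd_coeff h (finSuccEquiv ℚ (n + 1) (map (Int.castRingHom ℚ) G'))).2
      (fun k => by
        rw [hcoeff]
        exact hc k)
    rw [← Sp_succ] at h1
    exact (map_dvd_iff (finSuccEquiv ℚ (n + 1))).1 h1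
  have hke : k ≤ e' := by
    by_contra hke
    apply hk
    have h1 : P.coeff k = 0 := by
      ext d
      rw [hP, finSuccEquiv_coeff_coeff, coeff_zero]
      refine hG'.coeff_eq_zero ?_
      rw [Finsupp.degree_eq_sum, Fin.sum_univ_succ, Finsupp.cons_zero]
      omega
    rw [h1, map_zero]
    exact dvd_zero h
  have hGhom : (P.coeff k).IsHomogeneous (e' - k) := by
    rw [hP]
    exact hG'.finSuccEquiv_coeff_isHomogeneous k (e' - k) (by omega)
  obtain ⟨μ, hμ0, hμ⟩ := Sh_pow (4 * P.natDegree) (b - 1)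
  obtain ⟨M, hM⟩ : ∃ M : ℕ, M = {p : Fin (n + 1) → ℤ | ‖p‖ ≤ (4 * P.natDegree : ℕ)}.ncard := ⟨_, rfl⟩
  refine ⟨P.coeff k, max (4 * |C₀|) (M / μ), ⟨_, hGhom⟩, by rwa [← hh], fun B hB => ?_⟩
  have hBpos : (0 : ℝ) < B := by exact_mod_cast hB
  rcases Nat.lt_or_ge (4 * P.natDegree) B with hBD | hBD
  · -- the points in one more variable
    obtain ⟨S, hS⟩ : ∃ S : Finset (Fin (n + 1) → ℤ), S = (Sh_finite a H (P.coeff k) B).toFinset := ⟨_, rfl⟩
    obtain ⟨T, hT⟩ : ∃ T : (Fin (n + 1) → ℤ) → Finset ℤ, T = fun p => (I B).filter fun t =>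
      eval (Fin.cons t p : Fin (n + 1 + 1) → ℤ) G' ≠ 0 := ⟨_, rfl⟩
    have hcard : S.card * B ≤ 4 * (S.sigma T).card := by
      rw [Finset.card_sigma, Finset.mul_sum, ← smul_eq_mul]
      refine Finset.card_nsmul_le_sum S _ B fun p hp => ?_
      rw [hS, Set.Finite.mem_toFinset] at hp
      have hTp : T p = (I B).filter fun t => eval (Fin.cons t p : Fin (n + 1 + 1) → ℤ) G' ≠ 0 := by rw [hT]
      rw [hTp]
      have h1 := Sh_count G' p k (I B) (by
        rw [← hP]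
        exact hp.2.2.1)
      rw [← hP] at h1
      have h2 := hI B
      omega
    have hinj : (S.sigma T).card ≤ (Z B).ncard := by
      rw [Set.ncard_eq_toFinset_card _ (hZfin B)]
      refine Finset.card_le_card_of_injOn (fun x => (Fin.cons x.2 x.1 : Fin (n + 1 + 1) → ℤ)) ?_ ?_
      · rintro ⟨p, t⟩ hx
        rw [Finset.mem_coe, Finset.mem_sigma] at hx
        obtain ⟨hp, ht⟩ := hx
        simp only at hp ht
        rw [hS, Set.Finite.mem_toFinset] at hp
        rw [hT, Finset.mem_filter] at ht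
        obtain ⟨hp1, hp2, hp3, hp4, hp5, hp6⟩ := hp
        rw [Finset.mem_coe, Set.Finite.mem_toFinset]
        exact hmem B p t hB hp1 hp2 hp4 hp5 hp6 ht.1 ht.2
      · rintro ⟨p, t⟩ - ⟨p', t'⟩ - hx
        simp only at hx
        obtain ⟨h1, h2⟩ := Fin.cons_injective2 hx
        rw [h1, h2]
    have h1 := hZ B hB
    have h2 : ((S.card * B : ℕ) : ℝ) ≤ 4 * |C₀| * (B : ℝ) ^ b := by
      calc ((S.card * B : ℕ) : ℝ) ≤ ((4 * (Z B).ncard : ℕ) : ℝ) := by
            exact_mod_cast hcard.trans (Nat.mul_le_mul_left 4 hinj)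
        _ = 4 * (((Z B).ncard : ℕ) : ℝ) := by push_cast; ring
        _ ≤ 4 * (C₀ * (B : ℝ) ^ b) := by gcongr
        _ ≤ 4 * (|C₀| * (B : ℝ) ^ b) := by
          gcongr
          exact le_abs_self C₀
        _ = _ := by ring
    rw [Set.ncard_eq_toFinset_card _ (Sh_finite a H (P.coeff k) B), ← hS, Real.rpow_sub_one hBpos.ne',
      ← mul_div_assoc, le_div_iff₀ hBpos]
    push_cast at h2
    refine h2.trans (mul_le_mul_of_nonneg_right (le_max_left _ _) (by positivity))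
  · -- small heights
    have h1 : (Sh a H (P.coeff k) B).ncard ≤ M := by
      rw [hM]
      refine Set.ncard_le_ncard (fun p hp => ?_) (Sp_ball _)
      refine hp.2.2.2.1.trans ?_
      exact_mod_cast hBD
    have h2 := hμ B hB hBD
    calc (((Sh a H (P.coeff k) B).ncard : ℕ) : ℝ) ≤ M := by exact_mod_cast h1
      _ = M / μ * μ := (div_mul_cancel₀ _ hμ0.ne').symm
      _ ≤ M / μ * (B : ℝ) ^ (b - 1) := by gcongr
      _ ≤ _ := mul_le_mul_of_nonneg_right (le_max_right _ _) (by positivity)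

/-- The point in one more variable. -/
private theorem Sh_cons {n : ℕ} {p : Fin (n + 1) → ℤ} (H : MvPolynomial (Fin (n + 1)) ℤ) {t : ℤ} {B : ℕ}
    (hp1 : Finset.univ.gcd p = 1) (hpB : ‖p‖ ≤ B) (ht : |t| ≤ B) :
    Finset.univ.gcd (Fin.cons t p : Fin (n + 1 + 1) → ℤ) = 1 ∧ ‖(Fin.cons t p : Fin (n + 1 + 1) → ℤ)‖ ≤ B ∧
      eval (Fin.cons t p : Fin (n + 1 + 1) → ℤ) (rename Fin.succ H) = eval p H := by
  obtain ⟨q, hq⟩ : ∃ q : Fin (n + 1 + 1) → ℤ, q = Fin.cons t p := ⟨_, rfl⟩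
  have hq0 : q 0 = t := by rw [hq, Fin.cons_zero]
  have hqs : ∀ i, q (Fin.succ i) = p i := fun i => by rw [hq, Fin.cons_succ]
  rw [← hq]
  refine ⟨?_, ?_, ?_⟩
  · have h1 : Finset.univ.gcd q ∣ 1 := by
      rw [← hp1]
      refine Finset.dvd_gcd fun i _ => ?_
      rw [← hqs]
      exact Finset.gcd_dvd (Finset.mem_univ _)
    exact Int.eq_one_of_dvd_one (Sp_gcd0 q) h1
  · rw [pi_norm_le_iff_of_nonneg (by positivity)]
    intro i
    refine Fin.cases ?_ (fun i => ?_) i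
    · rw [hq0, Int.norm_eq_abs, ← Int.cast_abs]
      exact_mod_cast ht
    · rw [hqs]
      exact (norm_le_pi_norm p i).trans hpB
  · rw [eval_rename]
    congr 2
    funext i
    exact hqs i

private theorem Sh_step {n e : ℕ} {a b : ℝ}
    (hc : ∀ H : MvPolynomial (Fin (n + 1 + 1)) ℤ, H.IsHomogeneous e →
      Irreducible (map (Int.castRingHom ℚ) H) → GradSh a b H)
    (H : MvPolynomial (Fin (n + 1)) ℤ) (hH : H.IsHomogeneous e)
    (hirr : Irreducible (map (Int.castRingHom ℚ) H)) : GradSh a (b - 1) H := by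
  obtain ⟨G', C₀, ⟨e', hG'⟩, hG, hC⟩ := hc (rename Fin.succ H) (hH.rename_isHomogeneous) (by
    rw [map_rename]
    exact Sp_irr hirr)
  refine Sh_main (b := b) H hirr hG' hG (fun B => Finset.Icc (-(B : ℤ)) B) (fun B => ?_)
    (fun B => Sh a (rename Fin.succ H) G' B) (fun B => Sh_finite _ _ _ _) hC
    (fun B p t hB hp1 hp2 hp4 hp5 hp6 ht htG => ?_)
  · rw [Int.card_Icc]
    omega
  · obtain ⟨h1, h2, h3⟩ := Sh_cons H hp1 hp4 (abs_le.2 (Finset.mem_Icc.1 ht))
    obtain ⟨h4, h5⟩ := Sh_grad H p t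
    refine ⟨h1, by rw [h3, hp2], htG, h2, ?_, ?_⟩
    · rw [h4, h5]
      exact hp5
    · rw [h4, h5]
      exact hp6

private theorem Sh_iter {N e : ℕ} {a : ℝ} (r : ℕ) {b : ℝ}
    (hc : ∀ H : MvPolynomial (Fin (N + r + 1)) ℤ, H.IsHomogeneous e →
      Irreducible (map (Int.castRingHom ℚ) H) → GradSh a b H) :
    ∀ H : MvPolynomial (Fin (N + 1)) ℤ, H.IsHomogeneous e →
      Irreducible (map (Int.castRingHom ℚ) H) → GradSh a (b - r) H := by
  induction r generalizing b with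
  | zero =>
    intro H hH hirr
    rw [Nat.cast_zero, sub_zero]
    exact hc H hH hirr
  | succ r ih =>
    intro H hH hirr
    have h1 := ih (b := b - 1) (Sh_step hc) H hH hirr
    have h2 : b - ((r + 1 : ℕ) : ℝ) = b - 1 - r := by
      push_cast
      ring
    rw [h2]
    exact h1

/-- The first step. -/
private theorem Sh_first {n e : ℕ} {a b : ℝ} (ha : 0 ≤ a)
    (hc : ∀ H : MvPolynomial (Fin (n + 1 + 1)) ℤ, H.IsHomogeneous e →
      Irreducible (map (Int.castRingHom ℚ) H) → GradShell a b H)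
    (H : MvPolynomial (Fin (n + 1)) ℤ) (hH : H.IsHomogeneous e)
    (hirr : Irreducible (map (Int.castRingHom ℚ) H)) : GradSh a (b - 1) H := by
  obtain ⟨G', C₀, ⟨e', hG'⟩, hG, hC⟩ := hc (rename Fin.succ H) (hH.rename_isHomogeneous) (by
    rw [map_rename]
    exact Sp_irr hirr) (4 ^ a)
  have h4 : (1 : ℝ) ≤ 4 ^ a := Real.one_le_rpow (by norm_num) ha
  refine Sh_main (b := b) H hirr hG' hG (fun B => Finset.Icc ((B : ℤ) - (B / 2 : ℕ)) B) (fun B => ?_)
    (fun B => {p | Finset.univ.gcd p = 1 ∧ eval p (rename Fin.succ H) = 0 ∧ eval p G' ≠ 0 ∧ ‖p‖ ≤ B ∧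
        ‖p‖ ^ a * ((Finset.univ.gcd fun j => eval p (pderiv j (rename Fin.succ H)) : ℤ) : ℝ) ≤
          4 ^ a * ‖fun j => eval p (pderiv j (rename Fin.succ H))‖ ∧
        ‖fun j => eval p (pderiv j (rename Fin.succ H))‖ ≤
          4 ^ a * ‖p‖ ^ a * ((Finset.univ.gcd fun j => eval p (pderiv j (rename Fin.succ H)) : ℤ) : ℝ)})
    (fun B => (Sp_ball (B : ℝ)).subset fun p hp => hp.2.2.2.1) (fun B hB => hC B (by exact_mod_cast hB))
    (fun B p t hB hp1 hp2 hp4 hp5 hp6 ht htG => ?_)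
  · rw [Int.card_Icc]
    omega
  · rw [Finset.mem_Icc] at ht
    have ht0 : 0 ≤ t := by omega
    obtain ⟨h1, h2, h3⟩ := Sh_cons H hp1 hp4 (t := t) (by rw [abs_of_nonneg ht0]; exact ht.2)
    obtain ⟨k1, k2⟩ := Sh_grad H p t
    have hg0 : (0 : ℝ) ≤ ((Finset.univ.gcd fun j => eval p (pderiv j H) : ℤ) : ℝ) := by exact_mod_cast Sp_gcd0 _
    have hq : (2 * B : ℝ) ≤ 4 * ‖(Fin.cons t p : Fin (n + 1 + 1) → ℤ)‖ := by
      have h5 := norm_le_pi_norm (Fin.cons t p : Fin (n + 1 + 1) → ℤ) 0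
      rw [Fin.cons_zero, Int.norm_eq_abs, ← Int.cast_abs, abs_of_nonneg ht0] at h5
      have h6 : (B : ℤ) ≤ 2 * t := by omega
      have h7 : (B : ℝ) ≤ 2 * t := by exact_mod_cast h6
      linarith
    refine ⟨h1, by rw [h3, hp2], htG, h2, ?_, ?_⟩
    · rw [k1, k2]
      have h5 : ‖(Fin.cons t p : Fin (n + 1 + 1) → ℤ)‖ ^ a ≤ (B : ℝ) ^ a :=
        Real.rpow_le_rpow (norm_nonneg _) h2 ha
      calc _ ≤ (B : ℝ) ^ a * ((Finset.univ.gcd fun j => eval p (pderiv j H) : ℤ) : ℝ) := by gcongr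
        _ ≤ ‖fun j => eval p (pderiv j H)‖ := hp5
        _ ≤ _ := le_mul_of_one_le_left (norm_nonneg _) h4
    · rw [k1, k2]
      refine hp6.trans (mul_le_mul_of_nonneg_right ?_ hg0)
      rw [← Real.mul_rpow (by norm_num) (norm_nonneg _)]
      exact Real.rpow_le_rpow (by positivity) hq ha

private theorem Sh_E {n : ℕ} {a b : ℝ} (ha : 0 < a) (hb : b < 0) {H : MvPolynomial (Fin (n + 1)) ℤ}
    (h : GradSh a b H) : GradE a H := by
  obtain ⟨G, C, hG, hHG, hC⟩ := h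
  obtain ⟨D, hD1, hD⟩ : ∃ D : ℕ, 1 ≤ D ∧ ∀ x : ℝ, (D : ℝ) ≤ x → C * x ^ b < 1 := by
    have h1 := (tendsto_rpow_neg_atTop (neg_pos.2 hb)).const_mul C
    rw [neg_neg, mul_zero] at h1
    have h2 := h1.eventually (gt_mem_nhds (zero_lt_one (α := ℝ)))
    obtain ⟨x₀, hx₀⟩ := Filter.eventually_atTop.1 h2
    obtain ⟨j, hj⟩ := exists_nat_ge x₀
    refine ⟨max 1 j, le_max_left _ _, fun x hx => hx₀ x (hj.trans (le_trans ?_ hx))⟩
    exact_mod_cast le_max_right 1 j
  refine ⟨G, max 1 ((2 * D : ℝ) ^ a), hG, hHG, fun p hp hp0 hpG => ?_⟩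
  obtain ⟨g, hg⟩ : ∃ g : Fin (n + 1) → ℤ, g = fun j => eval p (pderiv j H) := ⟨_, rfl⟩
  rw [← hg]
  by_cases hg0 : g = 0
  · rw [hg0, norm_zero]
    have h1 : (0 : ℝ) ≤ ((Finset.univ.gcd (0 : Fin (n + 1) → ℤ) : ℤ) : ℝ) := by exact_mod_cast Sp_gcd0 _
    positivity
  have hgcd1 : 0 < Finset.univ.gcd g := by
    refine lt_of_le_of_ne (Sp_gcd0 g) fun h1 => hg0 ?_
    funext j
    exact Finset.gcd_eq_zero_iff.1 h1.symm j (Finset.mem_univ j)
  have hgR : (0 : ℝ) < ((Finset.univ.gcd g : ℤ) : ℝ) := by exact_mod_cast hgcd1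
  have hgn : 0 < ‖g‖ := norm_pos_iff.2 hg0
  have hp1 := Sp_one hp
  have hpa : (1 : ℝ) ≤ ‖p‖ ^ a := Real.one_le_rpow hp1 ha.le
  obtain ⟨x, hx⟩ : ∃ x : ℝ, x = (‖g‖ / ((Finset.univ.gcd g : ℤ) : ℝ)) ^ (1 / a) := ⟨_, rfl⟩
  have hx0 : 0 < x := by
    rw [hx]
    positivity
  have hxa : x ^ a = ‖g‖ / ((Finset.univ.gcd g : ℤ) : ℝ) := by
    rw [hx, ← Real.rpow_mul (by positivity), one_div_mul_cancel ha.ne', Real.rpow_one]
  rcases lt_or_ge x ‖p‖ with hxp | hxp
  · have h1 : x ^ a ≤ ‖p‖ ^ a := Real.rpow_le_rpow hx0.le hxp.le ha.le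
    rw [hxa, div_le_iff₀ hgR] at h1
    refine h1.trans (mul_le_mul_of_nonneg_right ?_ hgR.le)
    exact le_mul_of_one_le_left (by positivity) (le_max_left _ _)
  · obtain ⟨P, hP⟩ := Sp_norm p
    obtain ⟨B, hB⟩ : ∃ B : ℕ, B = ⌊x⌋₊ := ⟨_, rfl⟩
    have hPB : P ≤ B := by
      rw [hB]
      exact Nat.le_floor (by rw [← hP]; exact hxp)
    have hP1 : 1 ≤ P := by
      rw [hP] at hp1
      exact_mod_cast hp1
    have hB1 : 1 ≤ B := hP1.trans hPB
    have hB1' : (1 : ℝ) ≤ B := by exact_mod_cast hB1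
    have hBx : (B : ℝ) ≤ x := by
      rw [hB]
      exact Nat.floor_le hx0.le
    have hxB : x ≤ 2 * B := by
      have h1 := Nat.lt_floor_add_one x
      rw [← hB] at h1
      linarith
    have hmem : p ∈ Sh a H G B := by
      refine ⟨hp, hp0, hpG, ?_, ?_, ?_⟩
      · rw [hP]
        exact_mod_cast hPB
      · rw [← hg]
        have h1 : (B : ℝ) ^ a ≤ x ^ a := Real.rpow_le_rpow (by positivity) hBx ha.le
        rwa [hxa, le_div_iff₀ hgR] at h1
      · rw [← hg]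
        have h1 : x ^ a ≤ (2 * B : ℝ) ^ a := Real.rpow_le_rpow hx0.le hxB ha.le
        rwa [hxa, div_le_iff₀ hgR] at h1
    have hBD : B < D := by
      by_contra hcon
      push Not at hcon
      have h1 := hC B hB1
      have h2 := hD B (by exact_mod_cast hcon)
      have h3 : (Sh a H G B).ncard = 0 := by
        have h4 : (((Sh a H G B).ncard : ℕ) : ℝ) < 1 := lt_of_le_of_lt h1 h2
        have h5 : (Sh a H G B).ncard < 1 := by exact_mod_cast h4
        omega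
      rw [Set.ncard_eq_zero (Sh_finite a H G B)] at h3
      rw [h3] at hmem
      exact hmem
    have h1 : x ^ a ≤ (2 * D : ℝ) ^ a := by
      refine Real.rpow_le_rpow hx0.le (hxB.trans ?_) ha.le
      have h2 : (B : ℝ) ≤ D := by exact_mod_cast hBD.le
      linarith
    rw [hxa, div_le_iff₀ hgR] at h1
    refine h1.trans (mul_le_mul_of_nonneg_right ?_ hgR.le)
    calc (2 * D : ℝ) ^ a ≤ max 1 ((2 * D : ℝ) ^ a) := le_max_right _ _
      _ ≤ _ := le_mul_of_one_le_right (by positivity) hpa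

/-- The bound `A B ^ b` for the number of the zeros in the shells, for the forms of degree `e` in `N + r + 2` variables,
where `b < r + 1`, implies the inequality for the gradients for the forms of degree `e` in `N + 1` variables. -/
theorem gradE_of_shell_deg {N r e : ℕ} {a b : ℝ} (ha : 0 < a) (hb : b < r + 1)
    (hc : ∀ H : MvPolynomial (Fin (N + r + 1 + 1)) ℤ, H.IsHomogeneous e →
      Irreducible (map (Int.castRingHom ℚ) H) → GradShell a b H) (H : MvPolynomial (Fin (N + 1)) ℤ)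
    (hH : H.IsHomogeneous e) (hirr : Irreducible (map (Int.castRingHom ℚ) H)) : GradE a H :=
  Sh_E ha (b := b - 1 - r) (by linarith) (Sh_iter r (Sh_first ha.le hc) H hH hirr)

end Pool.Agent.Lib.MP_17a322_nt.GE
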